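import Pool.Agent.helper29.JZ.Spec

/-!
# MP_3221a1_ag, row jz:EXM: every finite set has an incidence matrix
-/

set_option autoImplicit false

open Finset Polynomial Module

namespace Pool.Agent.helper46.JZ

open Pool.Agent.helper29.JZ

theorem EXM_coord (X : Finset ℂ) : ∃ x : Fin X.card → ℂ, Function.Injective x ∧
    (∀ k, x k ∈ X) ∧ ∀ a ∈ X, ∃ k, x k = a := by
  refine ⟨fun k => (X.equivFin.symm k : X).1, ?_, fun k => (X.equivFin.symm k : X).2, ?_⟩
  · intro k k' h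
    exact X.equivFin.symm.injective (Subtype.ext h)
  · intro a ha
    exact ⟨X.equivFin ⟨a, ha⟩, by simp⟩

theorem jz_EXM : EXM_stmt := by
  classical
  intro Z
  obtain ⟨x, hx, hxX, hXx⟩ := EXM_coord (Z.image Prod.fst)
  obtain ⟨y, hy, hyY, hYy⟩ := EXM_coord (Z.image Prod.snd)
  set M : Finset (Fin (Z.image Prod.fst).card × Fin (Z.image Prod.snd).card) :=
    univ.filter fun z => (x z.1, y z.2) ∈ Z with hM
  have hmem : ∀ z, z ∈ M ↔ (x z.1, y z.2) ∈ Z := fun z => by simp [hM]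
  have hZZ : ZZ x y M = Z := by
    ext p
    unfold ZZ
    rw [Finset.mem_image]
    constructor
    · rintro ⟨z, hz, rfl⟩
      exact (hmem z).1 hz
    · intro hp
      obtain ⟨k, hk⟩ := hXx p.1 (Finset.mem_image_of_mem _ hp)
      obtain ⟨m, hm⟩ := hYy p.2 (Finset.mem_image_of_mem _ hp)
      refine ⟨(k, m), (hmem _).2 ?_, ?_⟩
      · rw [hk, hm]
        exact hp
      · rw [hk, hm]
  refine ⟨_, _, x, y, M, hx, hy, ?_, ?_, ?_, hZZ⟩
  · intro k
    unfold col
    rw [Nat.one_le_iff_ne_zero, Finset.card_ne_zero]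
    obtain ⟨p, hp, hpk⟩ := Finset.mem_image.1 (hxX k)
    obtain ⟨m, hm⟩ := hYy p.2 (Finset.mem_image_of_mem _ hp)
    refine ⟨(k, m), Finset.mem_filter.2 ⟨(hmem _).2 ?_, rfl⟩⟩
    rw [hm, ← hpk]
    exact hp
  · intro m
    unfold row
    rw [Nat.one_le_iff_ne_zero, Finset.card_ne_zero]
    obtain ⟨p, hp, hpk⟩ := Finset.mem_image.1 (hyY m)
    obtain ⟨k, hk⟩ := hXx p.1 (Finset.mem_image_of_mem _ hp)
    refine ⟨(k, m), Finset.mem_filter.2 ⟨(hmem _).2 ?_, rfl⟩⟩
    rw [hk, ← hpk]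
    exact hp
  · have h1 : (ZZ x y M).card = M.card := by
      unfold ZZ
      refine Finset.card_image_of_injective _ fun z z' h => ?_
      exact Prod.ext (hx (Prod.ext_iff.1 h).1) (hy (Prod.ext_iff.1 h).2)
    rw [← h1, hZZ]

end Pool.Agent.helper46.JZ
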